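import Pool.Agent.Q160.SY.Stm

/-!
# Project SY of helper160, job MC: integrals along a chain
-/

set_option autoImplicit false

namespace Pool.Agent.Q166.SYT

open Finset MeasureTheory Pool.Agent.Q160.SY
open scoped ENNReal

section

variable {X : ℕ → Type} [∀ d, MeasurableSpace (X d)] (μ : ∀ d, Measure (X d))
  [∀ d, IsProbabilityMeasure (μ d)]

/-- append a last coordinate -/
def app (M : ℕ) (z : (∀ d : Fin (M + 1), X d) × X (M + 1)) : ∀ d : Fin (M + 1 + 1), X d :=
  Fin.snoc (α := fun d : Fin (M + 1 + 1) => X d) z.1 z.2

omit [∀ d, MeasurableSpace (X d)] in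
theorem app_castSucc (M : ℕ) (z : (∀ d : Fin (M + 1), X d) × X (M + 1)) (d : Fin (M + 1)) :
    app M z d.castSucc = z.1 d := by
  unfold app
  rw [Fin.snoc_castSucc]

omit [∀ d, MeasurableSpace (X d)] in
theorem app_last (M : ℕ) (z : (∀ d : Fin (M + 1), X d) × X (M + 1)) :
    app M z (Fin.last (M + 1)) = z.2 := by
  unfold app
  rw [Fin.snoc_last]

theorem app_meas (M : ℕ) : Measurable (app (X := X) M) := by
  refine measurable_pi_lambda _ fun d => ?_
  refine Fin.lastCases ?_ (fun i => ?_) d
  · have h : (fun z => app (X := X) M z (Fin.last (M + 1))) = fun z => z.2 := by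
      funext z; exact app_last M z
    rw [h]; exact measurable_snd
  · have h : (fun z => app (X := X) M z i.castSucc) = fun z => z.1 i := by
      funext z; exact app_castSucc M z i
    rw [h]; exact (measurable_pi_apply i).comp measurable_fst

theorem app_mp (M : ℕ) : MeasurePreserving (app (X := X) M)
    ((Measure.pi fun d : Fin (M + 1) => μ d).prod (μ (M + 1)))
    (Measure.pi fun d : Fin (M + 1 + 1) => μ d) := by
  refine ⟨app_meas M, (Measure.pi_eq fun s hs => ?_).symm⟩
  rw [Measure.map_apply (app_meas M) (MeasurableSet.univ_pi hs)]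
  have h : app (X := X) M ⁻¹' (Set.univ.pi s) =
      (Set.univ.pi fun d : Fin (M + 1) => s d.castSucc) ×ˢ s (Fin.last (M + 1)) := by
    ext z
    simp only [Set.mem_preimage, Set.mem_univ_pi, Set.mem_prod]
    constructor
    · intro hz
      refine ⟨fun i => ?_, ?_⟩
      · have := hz i.castSucc
        rwa [app_castSucc] at this
      · have := hz (Fin.last (M + 1))
        rwa [app_last] at this
    · rintro ⟨h1, h2⟩ d
      refine Fin.lastCases ?_ (fun i => ?_) d
      · rw [app_last]; exact h2
      · rw [app_castSucc]; exact h1 i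
  rw [h]
  have h3 := Measure.prod_prod (μ := Measure.pi fun d : Fin (M + 1) => μ d) (ν := μ (M + 1))
    (Set.univ.pi fun d : Fin (M + 1) => s d.castSucc) (s (Fin.last (M + 1)))
  have h4 := Measure.pi_pi (fun d : Fin (M + 1) => μ d) (fun d : Fin (M + 1) => s d.castSucc)
  rw [h4] at h3
  refine h3.trans ?_
  exact (Fin.prod_univ_castSucc (fun i : Fin (M + 1 + 1) => μ i (s i))).symm

end

theorem t_MC : J_MC := by
  intro X _ μ _ K hK
  have hm : ∀ d, Measurable (hh X μ K d) := by
    intro d
    induction d with
    | zero => exact measurable_const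
    | succ d ih =>
      have h1 : Measurable (fun z : X d × X (d + 1) => hh X μ K d z.1 * K d z.1 z.2) :=
        (ih.comp measurable_fst).mul (hK d)
      exact h1.lintegral_prod_left'
  refine ⟨hm, ?_⟩
  have hF : ∀ (M : ℕ) (f : X M → ℝ≥0∞), Measurable f →
      Measurable (fun x : (∀ d : Fin (M + 1), X d) =>
        (∏ d : Fin M, K d (x d.castSucc) (x d.succ)) * f (x (Fin.last M))) := by
    intro M f hf
    refine Measurable.mul (Finset.measurable_prod _ fun d _ => ?_)
      (hf.comp (measurable_pi_apply (Fin.last M)))
    exact (hK d).comp (f := fun x : (∀ d : Fin (M + 1), X d) =>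
      ((x d.castSucc, x d.succ) : X d × X (d + 1)))
      ((measurable_pi_apply d.castSucc).prodMk (measurable_pi_apply d.succ))
  intro M
  induction M with
  | zero =>
    intro f hf
    have h1 := measurePreserving_eval (μ := fun d : Fin (0 + 1) => μ d) (Fin.last 0)
    have h2 := h1.lintegral_comp (f := f) hf
    simp only [Finset.univ_eq_empty, Finset.prod_empty, one_mul, hh]
    exact h2
  | succ M ih =>
    intro f hf
    rw [← (app_mp μ M).lintegral_comp (hF (M + 1) f hf)]
    refine (lintegral_prod_symm _ (((hF (M + 1) f hf).comp (app_meas M)).aemeasurable)).trans ?_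
    refine lintegral_congr fun y => ?_
    have h1 : ∀ p : (∀ d : Fin (M + 1), X d),
        (∏ d : Fin (M + 1), K d (app M (p, y) d.castSucc) (app M (p, y) d.succ)) *
          f (app M (p, y) (Fin.last (M + 1))) =
        ((∏ d : Fin M, K d (p d.castSucc) (p d.succ)) * K M (p (Fin.last M)) y) * f y := by
      intro p
      rw [app_last]
      congr 1
      refine (Fin.prod_univ_castSucc (fun d : Fin (M + 1) =>
        K d (app M (p, y) d.castSucc) (app M (p, y) d.succ))).trans ?_
      congr 1
      · refine Finset.prod_congr rfl fun d _ => ?_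
        have e1 : app M (p, y) d.castSucc.castSucc = p d.castSucc := app_castSucc M (p, y) _
        have e2 : app M (p, y) d.castSucc.succ = p d.succ := app_castSucc M (p, y) d.succ
        exact congrArg₂ (K d) e1 e2
      · have e1 : app M (p, y) (Fin.last M).castSucc = p (Fin.last M) := app_castSucc M (p, y) _
        have e2 : app M (p, y) (Fin.last M).succ = y := app_last M (p, y)
        exact congrArg₂ (K M) e1 e2
    refine (lintegral_congr h1).trans ?_
    have hg : Measurable (fun x : X M => K M x y) :=
      (hK M).comp (measurable_id.prodMk measurable_const)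
    rw [lintegral_mul_const _ (hF M (fun x => K M x y) hg), ih (fun x => K M x y) hg]
    rfl

end Pool.Agent.Q166.SYT
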