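import Pool.Agent.Q160.SY.Stm

/-!
# Project SY of helper160, job CNT: linear extensions and the order polytope
-/

set_option autoImplicit false

namespace Pool.Agent.Q166.SYT

open Finset MeasureTheory Pool.Agent.Q160.SY
open scoped ENNReal Nat

section

variable {α : Type} [Fintype α]

/-- the chamber of an ordering -/
def V (e : α ≃ Fin (Fintype.card α)) : Set (α → ℝ) := {f | StrictMono (f ∘ e.symm)}

theorem V_lt {e : α ≃ Fin (Fintype.card α)} {f : α → ℝ} (hf : f ∈ V e) (a b : α) :
    f a < f b ↔ e a < e b := by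
  have h : StrictMono (f ∘ e.symm) := hf
  have := h.lt_iff_lt (a := e a) (b := e b)
  simpa using this

theorem V_inj {e : α ≃ Fin (Fintype.card α)} {f : α → ℝ} (hf : f ∈ V e) :
    Function.Injective f := by
  have h : StrictMono (f ∘ e.symm) := hf
  intro a b hab
  have h1 : (f ∘ e.symm) (e a) = (f ∘ e.symm) (e b) := by simpa using hab
  exact e.injective (h.injective h1)

theorem V_meas (e : α ≃ Fin (Fintype.card α)) : MeasurableSet (V e) := by
  have h : V e = ⋂ i : Fin (Fintype.card α), ⋂ j : Fin (Fintype.card α), ⋂ _ : i < j,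
      {f : α → ℝ | f (e.symm i) < f (e.symm j)} := by
    ext f
    simp only [V, StrictMono, Set.mem_ofPred_eq, Set.mem_iInter, Function.comp]
  rw [h]
  exact MeasurableSet.iInter fun i => MeasurableSet.iInter fun j => MeasurableSet.iInter fun _ =>
    measurableSet_lt (measurable_pi_apply _) (measurable_pi_apply _)

theorem V_disj {e e' : α ≃ Fin (Fintype.card α)} {f : α → ℝ} (hf : f ∈ V e) (hf' : f ∈ V e') :
    e = e' := by
  have hm : ∀ i j, i < j → (e.symm.trans e') i < (e.symm.trans e') j := by
    intro i j hij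
    have h1 : f (e.symm i) < f (e.symm j) := by
      rw [V_lt hf]; simpa using hij
    have h2 := (V_lt hf' _ _).1 h1
    simpa using h2
  have h3 : StrictMono (e.symm.trans e') := fun i j h => hm i j h
  have h4 : (fun i => (e.symm.trans e') i) = id := by
    apply (StrictMono.range_inj h3 strictMono_id).1
    rw [Set.range_id]
    exact (e.symm.trans e').surjective.range_eq
  ext a
  have h5 := congrFun h4 (e a)
  simp only [Equiv.trans_apply, Equiv.symm_apply_apply, id] at h5
  rw [h5]

theorem V_cover {f : α → ℝ} (hf : Function.Injective f) : ∃ e, f ∈ V e := by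
  classical
  set s : Finset ℝ := Finset.univ.image f with hs
  have hc : s.card = Fintype.card α := by
    rw [hs, Finset.card_image_of_injective _ hf, Finset.card_univ]
  let g : α ≃ s := Equiv.ofBijective (fun a => ⟨f a, Finset.mem_image_of_mem _ (Finset.mem_univ _)⟩)
    ⟨fun a b h => hf (Subtype.ext_iff.1 h), fun y => by
      obtain ⟨a, -, ha⟩ := Finset.mem_image.1 y.2
      exact ⟨a, Subtype.ext ha⟩⟩
  refine ⟨g.trans (s.orderIsoOfFin hc).symm.toEquiv, ?_⟩
  intro i j hij
  have h1 : ∀ i, f ((g.trans (s.orderIsoOfFin hc).symm.toEquiv).symm i) = (s.orderIsoOfFin hc i : ℝ) := by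
    intro i
    have h2 : g (g.symm (s.orderIsoOfFin hc i)) = s.orderIsoOfFin hc i := g.apply_symm_apply _
    exact congrArg Subtype.val h2
  simp only [Function.comp]
  rw [h1, h1]
  exact (s.orderIsoOfFin hc).strictMono hij

/-- the measure is a restriction of Lebesgue measure -/
theorem pi_U : (Measure.pi (fun _ : α => U)) =
    (volume : Measure (α → ℝ)).restrict (Set.univ.pi fun _ => Set.Ioo 0 1) := by
  have h := Measure.restrict_pi_pi (fun _ : α => (volume : Measure ℝ)) (fun _ => Set.Ioo (0 : ℝ) 1)
  rw [volume_pi]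
  exact h.symm

theorem null_eq {a b : α} (hab : a ≠ b) : (Measure.pi (fun _ : α => U)) {f | f a = f b} = 0 := by
  classical
  have h1 : (volume : Measure (α → ℝ)) {f | f a = f b} = 0 := by
    set W : Submodule ℝ (α → ℝ) :=
      LinearMap.ker ((LinearMap.proj a : (α → ℝ) →ₗ[ℝ] ℝ) - (LinearMap.proj b : (α → ℝ) →ₗ[ℝ] ℝ))
      with hW
    have h2 : {f : α → ℝ | f a = f b} = (W : Set (α → ℝ)) := by
      ext f
      simp [hW, sub_eq_zero]
    rw [h2]
    apply Measure.addHaar_submodule
    intro h3
    have h4 : (Pi.single a (1 : ℝ) : α → ℝ) ∈ W := by rw [h3]; trivial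
    have h5 : (Pi.single a (1 : ℝ) : α → ℝ) ∈ (W : Set (α → ℝ)) := h4
    rw [← h2] at h5
    simp only [Set.mem_ofPred_eq, Pi.single_eq_same] at h5
    rw [Pi.single_eq_of_ne (Ne.symm hab)] at h5
    norm_num at h5
  rw [pi_U]
  exact Measure.absolutelyContinuous_of_le Measure.restrict_le_self h1

theorem ae_inj : ∀ᵐ f ∂(Measure.pi (fun _ : α => U)), Function.Injective f := by
  have h : ∀ᵐ f ∂(Measure.pi (fun _ : α => U)), ∀ a b, a ≠ b → f a ≠ f b := by
    rw [ae_all_iff]
    intro a
    rw [ae_all_iff]
    intro b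
    by_cases hab : a = b
    · exact Filter.Eventually.of_forall fun f h => absurd hab h
    · have := null_eq hab
      rw [ae_iff]
      refine measure_mono_null ?_ this
      intro f hf
      simp only [Set.mem_ofPred_eq] at hf ⊢
      push Not at hf
      exact hf.2
  filter_upwards [h] with f hf a b hab
  by_contra hne
  exact hf a b hne hab

theorem V_eq (e e' : α ≃ Fin (Fintype.card α)) :
    (Measure.pi (fun _ : α => U)) (V e) = (Measure.pi (fun _ : α => U)) (V e') := by
  have h1 := measurePreserving_piCongrLeft (fun _ : α => U) (e'.trans e.symm).symm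
  rw [← h1.measure_preimage (V_meas e').nullMeasurableSet]
  congr 1
  ext f
  simp only [Set.mem_preimage, V, Set.mem_ofPred_eq]
  have h2 : ((MeasurableEquiv.piCongrLeft (fun _ : α => ℝ) (e'.trans e.symm).symm) f ∘ e'.symm) =
      f ∘ e.symm := by
    funext i
    simp only [Function.comp]
    have h3 := Equiv.piCongrLeft_apply_apply (fun _ : α => ℝ) (e'.trans e.symm).symm f (e.symm i)
    have h4 : (e'.trans e.symm).symm (e.symm i) = e'.symm i := by simp
    rw [h4] at h3
    exact h3
  rw [h2]

theorem V_measure (e : α ≃ Fin (Fintype.card α)) :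
    ((Fintype.card α)! : ℝ≥0∞) * (Measure.pi (fun _ : α => U)) (V e) = 1 := by
  classical
  have h1 : (Measure.pi (fun _ : α => U)) (⋃ e' : α ≃ Fin (Fintype.card α), V e') = 1 := by
    rw [← measure_univ (μ := Measure.pi (fun _ : α => U))]
    apply measure_congr
    filter_upwards [ae_inj (α := α)] with f hf
    have h2 : f ∈ (⋃ e' : α ≃ Fin (Fintype.card α), V e') := Set.mem_iUnion.2 (V_cover hf)
    exact propext ⟨fun _ => trivial, fun _ => h2⟩
  rw [measure_iUnion (fun e e' hne => Set.disjoint_left.2 fun f hf hf' => hne (V_disj hf hf'))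
    V_meas, tsum_fintype, Finset.sum_congr rfl (fun e' _ => V_eq e' e), Finset.sum_const,
    Finset.card_univ, Fintype.card_equiv (Fintype.equivFin α), nsmul_eq_mul] at h1
  exact h1

end

theorem t_CNT : J_CNT := by
  intro α _ _ R
  set A : Set (α → ℝ) := {f | ∀ a b, R a b → f a < f b} with hA
  have hAm : MeasurableSet A := by
    have h : A = ⋂ a : α, ⋂ b : α, ⋂ _ : R a b, {f : α → ℝ | f a < f b} := by
      ext f
      simp only [hA, Set.mem_ofPred_eq, Set.mem_iInter]
    rw [h]
    exact MeasurableSet.iInter fun i => MeasurableSet.iInter fun j => MeasurableSet.iInter fun _ =>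
      measurableSet_lt (measurable_pi_apply _) (measurable_pi_apply _)
  have h1 : (Measure.pi (fun _ : α => U)) A = (Measure.pi (fun _ : α => U))
      (⋃ e : {e : α ≃ Fin (Fintype.card α) // ∀ a b, R a b → e a < e b}, V e.1) := by
    apply measure_congr
    filter_upwards [ae_inj (α := α)] with f hf
    apply propext
    constructor
    · intro hfA
      obtain ⟨e, he⟩ := V_cover hf
      exact Set.mem_iUnion.2 ⟨⟨e, fun a b hab => (V_lt he a b).1 (hfA a b hab)⟩, he⟩
    · intro hfV
      obtain ⟨e, he⟩ := Set.mem_iUnion.1 hfV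
      exact fun a b hab => (V_lt he a b).2 (e.2 a b hab)
  rw [h1, measure_iUnion (fun e e' hne => Set.disjoint_left.2 fun f hf hf' =>
    hne (Subtype.ext (V_disj hf hf'))) (fun e => V_meas e.1), ← ENNReal.tsum_mul_left]
  simp only [V_measure]
  rw [ENNReal.tsum_const, ENat.card_eq_coe_natCard, mul_one]
  simp

end Pool.Agent.Q166.SYT
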